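import Pool.Agent.W312.WT.Stm

/-!
# WT-SCmp (helper683 for helper312): completeness of the table step
-/

set_option autoImplicit false

namespace Pool.Agent.W683.WT

open Pool.Agent.W312.WT

theorem inR_iff {h₁ h₂ : ℕ} {x : Jb} : inR h₁ h₂ x = true ↔ h₁ ≤ x.2.1 ∧ x.2.1 < h₂ := by
  simp [inR]

theorem cz_split (A R : List Jb) (x : Jb) (t₁ t₂ : List ℕ) (t : ℕ) (h : A.length = t₁.length) :
    cz (A ++ x :: R) (t₁ ++ t :: t₂) = cz A t₁ + tc x t + cz R t₂ := by
  unfold cz
  rw [List.zipWith_append h, List.sum_append, List.zipWith_cons_cons, List.sum_cons]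
  omega

/-- the threshold -/
theorem exists_h {th : List ℕ} {P A R : List Jb} {h₁ h₂ D : ℕ} (hh₁ : h₁ ∈ th) (hle : h₁ ≤ h₂)
    (hth : ∀ y ∈ P, y.2.1 + 1 ∈ th) (hA : ∀ y ∈ A, y ∈ P ∧ inR h₁ h₂ y = true)
    (hR : ∀ y ∈ R, y ∈ P ∧ inR h₁ h₂ y = true) (hAD : ∀ y ∈ A, y.2.1 ≤ D)
    (hRD : ∀ y ∈ R, D < y.2.1) :
    ∃ h ∈ th, h₁ ≤ h ∧ h ≤ h₂ ∧ (∀ y ∈ A, y.2.1 < h) ∧ ∀ y ∈ R, h ≤ y.2.1 := by
  rcases A.eq_nil_or_concat with rfl | ⟨A', b, hb⟩
  · exact ⟨h₁, hh₁, le_rfl, hle, by simp, fun y hy => (inR_iff.1 (hR y hy).2).1⟩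
  · have hne : A.toFinset.Nonempty := ⟨b, by rw [hb]; simp⟩
    obtain ⟨y₀, hy₀, hmax⟩ := Finset.exists_max_image A.toFinset (fun y : Jb => y.2.1) hne
    rw [List.mem_toFinset] at hy₀
    obtain ⟨h3, h4⟩ := inR_iff.1 (hA y₀ hy₀).2
    refine ⟨y₀.2.1 + 1, hth y₀ (hA y₀ hy₀).1, by omega, by omega, fun y hy => ?_, fun y hy => ?_⟩
    · exact Nat.lt_succ_of_le (hmax y (List.mem_toFinset.2 hy))
    · have h5 := hAD y₀ hy₀
      have h6 := hRD y hy
      omega

theorem perm_parts {P A R : List Jb} {h₁ h₂ h : ℕ} (h1 : h₁ ≤ h) (h2 : h ≤ h₂)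
    (hp : (A ++ R).Perm (P.filter (inR h₁ h₂))) (hA : ∀ y ∈ A, y.2.1 < h)
    (hR : ∀ y ∈ R, h ≤ y.2.1) :
    A.Perm (P.filter (inR h₁ h)) ∧ R.Perm (P.filter (inR h h₂)) := by
  constructor
  · have h3 := hp.filter (fun y => decide (y.2.1 < h))
    have e1 : (A ++ R).filter (fun y => decide (y.2.1 < h)) = A := by
      rw [List.filter_append, List.filter_eq_self.2 (fun y hy => by simpa using hA y hy),
        List.filter_eq_nil_iff.2 (fun y hy => by simpa using hR y hy), List.append_nil]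
    have e2 : (P.filter (inR h₁ h₂)).filter (fun y => decide (y.2.1 < h)) =
        P.filter (inR h₁ h) := by
      rw [List.filter_filter]
      refine List.filter_congr fun y _ => ?_
      rw [Bool.eq_iff_iff]
      simp only [Bool.and_eq_true, decide_eq_true_eq, inR_iff]
      omega
    rwa [e1, e2] at h3
  · have h3 := hp.filter (fun y => decide (h ≤ y.2.1))
    have e1 : (A ++ R).filter (fun y => decide (h ≤ y.2.1)) = R := by
      rw [List.filter_append, List.filter_eq_nil_iff.2 (fun y hy => by simpa using hA y hy),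
        List.filter_eq_self.2 (fun y hy => by simpa using hR y hy), List.nil_append]
    have e2 : (P.filter (inR h₁ h₂)).filter (fun y => decide (h ≤ y.2.1)) =
        P.filter (inR h h₂) := by
      rw [List.filter_filter]
      refine List.filter_congr fun y _ => ?_
      rw [Bool.eq_iff_iff]
      simp only [Bool.and_eq_true, decide_eq_true_eq, inR_iff]
      omega
    rwa [e1, e2] at h3

theorem proof_SCmp : Pool.Agent.W312.WT.SCmp := by
  intro hDec p n cand th x P T hw hth hT h₁ hh₁ h₂ hh₂ hle s a ha l hperm hs hl hch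
  by_cases hx : inR h₁ h₂ x = true
  · rw [List.filter_cons_of_pos hx] at hperm
    obtain ⟨A, R, D, hAR, hAD, hRD, hcost⟩ := hDec x (P.filter (inR h₁ h₂)) (l.map Prod.fst)
      (l.map Prod.snd) (fun y hy => hw y (List.mem_filter.1 hy).1) hperm (by simp) hch.sorted
    have hp : (A ++ R).Perm (P.filter (inR h₁ h₂)) :=
      (((List.perm_middle).symm.trans hAR).trans hperm).cons_inv
    have hmem : ∀ y ∈ A ++ R, y ∈ P ∧ inR h₁ h₂ y = true := fun y hy =>
      List.mem_filter.1 (hp.subset hy)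
    obtain ⟨h, hh, hh1, hh2, hA, hR⟩ := exists_h hh₁ hle hth
      (fun y hy => hmem y (List.mem_append_left _ hy))
      (fun y hy => hmem y (List.mem_append_right _ hy)) hAD hRD
    obtain ⟨pA, pR⟩ := perm_parts hh1 hh2 hp hA hR
    have hlen : l.length = A.length + 1 + R.length := by
      have := hAR.length_eq
      simp only [List.length_append, List.length_cons, List.length_map] at this
      omega
    -- splitting the times
    obtain ⟨t₁, t, t₂, ht, ht₁, ht₂⟩ : ∃ (t₁ : List ℕ) (t : ℕ) (t₂ : List ℕ),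
        l.map Prod.snd = t₁ ++ t :: t₂ ∧ t₁.length = A.length ∧ t₂.length = R.length := by
      have hlt : A.length < (l.map Prod.snd).length := by rw [List.length_map]; omega
      refine ⟨(l.map Prod.snd).take A.length, (l.map Prod.snd)[A.length],
        (l.map Prod.snd).drop (A.length + 1), ?_, ?_, ?_⟩
      · rw [← List.drop_eq_getElem_cons hlt, List.take_append_drop]
      · rw [List.length_take]
        omega
      · rw [List.length_drop, List.length_map]
        omega
    have hts : ∀ u ∈ t₁ ++ t :: t₂, u ∈ cand := by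
      intro u hu
      rw [← ht] at hu
      obtain ⟨e, he, rfl⟩ := List.mem_map.1 hu
      exact hl e he
    rw [ht] at hch hcost
    rw [chnT_append, ht₁] at hch
    obtain ⟨c1, c2, c3, c4, c5⟩ := hch
    have m1 : (A.zip t₁).map Prod.fst = A := List.map_fst_zip (by omega)
    have m2 : (A.zip t₁).map Prod.snd = t₁ := List.map_snd_zip (by omega)
    have m3 : (R.zip t₂).map Prod.fst = R := List.map_fst_zip (by omega)
    have m4 : (R.zip t₂).map Prod.snd = t₂ := List.map_snd_zip (by omega)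
    have n1 : (A.zip t₁).length = A.length := by rw [List.length_zip]; omega
    have n2 : (R.zip t₂).length = R.length := by rw [List.length_zip]; omega
    obtain ⟨e₁, he₁, k₁, q₁⟩ := hT h₁ hh₁ h hh hh1 s a ha (A.zip t₁) (by rw [m1]; exact pA)
      (by omega) (fun e he => hts _ (List.mem_append_left _ (by
        rw [← m2]; exact List.mem_map_of_mem he))) (by rw [m2]; exact c1)
    obtain ⟨e₂, he₂, k₂, q₂⟩ := hT h hh h₂ hh₂ hh2 (s + A.length + 1) t
      (hts t (by simp)) (R.zip t₂) (by rw [m3]; exact pR)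
      (by omega) (fun e he => hts _ (List.mem_append_right _ (List.mem_cons_of_mem _ (by
        rw [← m4]; exact List.mem_map_of_mem he)))) (by rw [m4]; exact c5)
    rw [m2, n1] at k₁
    rw [m4, n2] at k₂
    refine ⟨(((h₁, h₂), (s, s + l.length), (a, lastT a (l.map Prod.snd))),
      e₁.2 ++ (x, t) :: e₂.2), ?_, rfl, ?_⟩
    · unfold stepE
      refine List.mem_append_right _ (List.mem_flatMap.2 ⟨e₁, he₁, List.mem_flatMap.2
        ⟨e₂, he₂, ?_⟩⟩)
      unfold joinE
      rw [if_pos]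
      · rw [List.mem_singleton, k₁, k₂, ht, lastT_append, hlen]
        simp only [lastT]
        have e : s + (A.length + 1 + R.length) = s + A.length + 1 + R.length := by omega
        rw [e]
      · rw [k₁, k₂]
        exact ⟨hh1, hh2, rfl, rfl, c2, c3, c4, hx⟩
    · rw [cst_append, cst_cons]
      rw [cst_zip] at q₁ q₂
      rw [cz_split A R x t₁ t₂ t ht₁.symm, ← ht, cz_map] at hcost
      show cst e₁.2 + (tc x t + cst e₂.2) ≤ cst l
      omega
  · rw [List.filter_cons_of_neg hx] at hperm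
    obtain ⟨e, he, hk, hc⟩ := hT h₁ hh₁ h₂ hh₂ hle s a ha l hperm hs hl hch
    refine ⟨e, ?_, hk, hc⟩
    unfold stepE
    refine List.mem_append_left _ (List.mem_filter.2 ⟨he, ?_⟩)
    rw [hk]
    simpa using hx

end Pool.Agent.W683.WT
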